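import Mathlib

/-!
# Cash thresholds of interval subtraction games (MP_88cfb8, Q1)

For `A = {L, …, M}`, `1 ≤ L ≤ M`, the cash thresholds satisfy
`f(n + L + M) = f(n) + M` for all large `n`, for both players.
-/

set_option autoImplicit false

namespace Pool.Agent.Results.MP_88cfb8_co.QuasiPeriodic

/-- `FirstWins L M n`: in the subtraction game on `{L, …, M}` the player to move from a pile of `n`
stones wins (a player who cannot move loses). -/
def FirstWins (L M : ℕ) (n : ℕ) : Prop :=
  ∃ a, ∃ _ : 0 < a ∧ L ≤ a ∧ a ≤ M ∧ a ≤ n, ¬ FirstWins L M (n - a)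
termination_by n
decreasing_by omega

/-- The recursion defining the cash thresholds `f_I, f_II` of the game on `A = {L, …, M}`. -/
structure IsCash (L M : ℕ) (fI fII : ℕ → ℕ) : Prop where
  small : ∀ n, n < L → fI n = 0 ∧ fII n = 0
  two : ∀ n, L ≤ n →
    IsGreatest {v | ∃ a, L ≤ a ∧ a ≤ M ∧ a ≤ n ∧ v = fI (n - a)} (fII n)
  one_win : ∀ n, L ≤ n → FirstWins L M n →
    IsLeast {v | ∃ a, L ≤ a ∧ a ≤ M ∧ a ≤ n ∧ ¬ FirstWins L M (n - a) ∧ v = fII (n - a) + a} (fI n)
  one_lose : ∀ n, L ≤ n → ¬ FirstWins L M n →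
    IsLeast {v | ∃ a, L ≤ a ∧ a ≤ M ∧ a ≤ n ∧ fI (n - a) = fII n ∧ v = fII (n - a) + a} (fI n)

/-- closed form of `f_I` in terms of `x = k M`, `y = k L` and `r`, where `n = k (L + M) + r` -/
def G1 (L x y r : ℕ) : ℕ :=
  max (x + r + 1 - L) (if y + L ≤ x + r then y + L else y)

/-- closed form of `f_II` -/
def G2 (L M x y r : ℕ) : ℕ :=
  if r < L then max (x + r + 1 - L) y
  else if r < M then max (max x (x + r + 1 - 2 * L)) (if y + 2 * L ≤ x + r then y + L else 0)
  else max (x + r + 1 - 2 * L) (if y + 2 * L ≤ x + r then y + L else y)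

/-- closed form of `f_I` -/
def F1 (L M n : ℕ) : ℕ :=
  G1 L (n / (L + M) * M) (n / (L + M) * L) (n % (L + M))

/-- closed form of `f_II` -/
def F2 (L M n : ℕ) : ℕ :=
  G2 L M (n / (L + M) * M) (n / (L + M) * L) (n % (L + M))

theorem div_mod_aux (P k r : ℕ) (hr : r < P) : (k * P + r) / P = k ∧ (k * P + r) % P = r := by
  constructor
  · rw [Nat.add_comm, Nat.add_mul_div_right _ _ (by omega), Nat.div_eq_of_lt hr, Nat.zero_add]
  · rw [Nat.add_comm, Nat.add_mul_mod_self_right, Nat.mod_eq_of_lt hr]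

theorem F1_eq (L M k r : ℕ) (hr : r < L + M) :
    F1 L M (k * (L + M) + r) = G1 L (k * M) (k * L) r := by
  obtain ⟨h1, h2⟩ := div_mod_aux (L + M) k r hr
  rw [F1, h1, h2]

theorem F2_eq (L M k r : ℕ) (hr : r < L + M) :
    F2 L M (k * (L + M) + r) = G2 L M (k * M) (k * L) r := by
  obtain ⟨h1, h2⟩ := div_mod_aux (L + M) k r hr
  rw [F2, h1, h2]

theorem firstWins_iff (L M : ℕ) (hL : 1 ≤ L) (hLM : L ≤ M) (n : ℕ) :
    FirstWins L M n ↔ L ≤ n % (L + M) := by
  induction n using Nat.strong_induction_on with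
  | _ n ih =>
    rw [FirstWins]
    have hP : 0 < L + M := by omega
    obtain ⟨k, r, hr, rfl⟩ : ∃ k r, r < L + M ∧ n = k * (L + M) + r :=
      ⟨n / (L + M), n % (L + M), Nat.mod_lt _ hP, by rw [Nat.mul_comm]; exact (Nat.div_add_mod _ _).symm⟩
    rw [(div_mod_aux (L + M) k r hr).2]
    constructor
    · rintro ⟨a, ⟨h0, h1, h2, h3⟩, hn⟩
      rw [ih _ (by omega)] at hn
      by_contra hcon
      push Not at hcon hn
      -- r < L, a > r so goes to the previous row
      have hk : k ≠ 0 := by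
        rintro rfl
        omega
      obtain ⟨k', rfl⟩ := Nat.exists_eq_succ_of_ne_zero hk
      have e : (k' + 1) * (L + M) + r - a = k' * (L + M) + (L + M + r - a) := by
        rw [Nat.succ_mul]; omega
      rw [Nat.succ_eq_add_one, e, (div_mod_aux (L + M) k' (L + M + r - a) (by omega)).2] at hn
      omega
    · intro h
      refine ⟨if r - L < L then L else r - L + 1, ?_, ?_⟩
      · split_ifs <;> refine ⟨by omega, by omega, by omega, by omega⟩
      · rw [ih _ (by split_ifs <;> omega)]
        split_ifs with hh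
        · have e : k * (L + M) + r - L = k * (L + M) + (r - L) := by omega
          rw [e, (div_mod_aux (L + M) k (r - L) (by omega)).2]
          omega
        · have e : k * (L + M) + r - (r - L + 1) = k * (L + M) + (L - 1) := by omega
          rw [e, (div_mod_aux (L + M) k (L - 1) (by omega)).2]
          omega

theorem decomp (L M : ℕ) (hL : 1 ≤ L) (n : ℕ) :
    ∃ k r, r < L + M ∧ n = k * (L + M) + r :=
  ⟨n / (L + M), n % (L + M), Nat.mod_lt _ (by omega),
    by rw [Nat.mul_comm]; exact (Nat.div_add_mod _ _).symm⟩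

/-- values of `F1` in the window below `k (L + M) + r` -/
theorem F1_sub_le (L M k r a : ℕ) (hr : r < L + M) (ha : a ≤ r) :
    F1 L M (k * (L + M) + r - a) = G1 L (k * M) (k * L) (r - a) := by
  rw [show k * (L + M) + r - a = k * (L + M) + (r - a) by omega, F1_eq L M k _ (by omega)]

theorem F1_sub_gt (L M k r a : ℕ) (ha : r < a) (haM : a ≤ L + M) :
    F1 L M ((k + 1) * (L + M) + r - a) = G1 L (k * M) (k * L) (L + M + r - a) := by
  rw [show (k + 1) * (L + M) + r - a = k * (L + M) + (L + M + r - a) by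
    rw [Nat.succ_mul]; omega, F1_eq L M k _ (by omega)]

theorem F2_sub_le (L M k r a : ℕ) (hr : r < L + M) (ha : a ≤ r) :
    F2 L M (k * (L + M) + r - a) = G2 L M (k * M) (k * L) (r - a) := by
  rw [show k * (L + M) + r - a = k * (L + M) + (r - a) by omega, F2_eq L M k _ (by omega)]

theorem F2_sub_gt (L M k r a : ℕ) (ha : r < a) (haM : a ≤ L + M) :
    F2 L M ((k + 1) * (L + M) + r - a) = G2 L M (k * M) (k * L) (L + M + r - a) := by
  rw [show (k + 1) * (L + M) + r - a = k * (L + M) + (L + M + r - a) by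
    rw [Nat.succ_mul]; omega, F2_eq L M k _ (by omega)]

theorem zero_or_succ (k : ℕ) : k = 0 ∨ ∃ k', k = k' + 1 := by
  cases k with
  | zero => exact Or.inl rfl
  | succ k => exact Or.inr ⟨k, rfl⟩

theorem two_closed (L M : ℕ) (hL : 1 ≤ L) (hLM : L ≤ M) (n : ℕ) (hn : L ≤ n) :
    IsGreatest {v | ∃ a, L ≤ a ∧ a ≤ M ∧ a ≤ n ∧ v = F1 L M (n - a)} (F2 L M n) := by
  obtain ⟨k, r, hr, rfl⟩ := decomp L M hL n
  rw [F2_eq L M k r hr]
  rcases zero_or_succ k with rfl | ⟨k, rfl⟩
  · simp only [Nat.zero_mul, Nat.zero_add] at hn ⊢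
    constructor
    · refine ⟨L, le_rfl, hLM, hn, ?_⟩
      have := F1_sub_le L M 0 r L hr hn
      simp only [Nat.zero_mul, Nat.zero_add] at this
      rw [this, G1, G2]
      split_ifs <;> omega
    · rintro v ⟨a, h1, h2, h3, rfl⟩
      have := F1_sub_le L M 0 r a hr h3
      simp only [Nat.zero_mul, Nat.zero_add] at this
      rw [this, G1, G2]
      split_ifs <;> omega
  · have hx : (k + 1) * M = k * M + M := Nat.succ_mul k M
    have hy : (k + 1) * L = k * L + L := Nat.succ_mul k L
    have hxy : k * L ≤ k * M := Nat.mul_le_mul_left k hLM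
    rw [hx, hy]
    constructor
    · -- the maximum is attained at `a = L` if possible inside the row or at the end of the row before
      by_cases h1 : r < L
      · refine ⟨L, le_rfl, hLM, hn, ?_⟩
        rw [F1_sub_gt L M k r L h1 (by omega), G1, G2]
        generalize k * M = x at *
        generalize k * L = y at *
        split_ifs <;> omega
      · by_cases h2 : r < M
        · by_cases h3 : max (k * M + M + r + 1 - 2 * L)
              (if k * L + L + 2 * L ≤ k * M + M + r then k * L + L + L else 0) ≤ k * M + M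
          · refine ⟨r + 1, by omega, by omega, by rw [Nat.succ_mul]; omega, ?_⟩
            rw [F1_sub_gt L M k r (r + 1) (by omega) (by omega), G1, G2]
            generalize k * M = x at *
            generalize k * L = y at *
            split_ifs at * <;> omega
          · refine ⟨L, le_rfl, hLM, hn, ?_⟩
            rw [F1_sub_le L M (k + 1) r L hr (by omega), hx, hy, G1, G2]
            generalize k * M = x at *
            generalize k * L = y at *
            split_ifs at * <;> omega
        · refine ⟨L, le_rfl, hLM, hn, ?_⟩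
          rw [F1_sub_le L M (k + 1) r L hr (by omega), hx, hy, G1, G2]
          generalize k * M = x at *
          generalize k * L = y at *
          split_ifs at * <;> omega
    · rintro v ⟨a, h1, h2, h3, rfl⟩
      by_cases ha : a ≤ r
      · rw [F1_sub_le L M (k + 1) r a hr ha, hx, hy, G1, G2]
        generalize k * M = x at *
        generalize k * L = y at *
        split_ifs <;> omega
      · rw [F1_sub_gt L M k r a (by omega) (by omega), G1, G2]
        generalize k * M = x at *
        generalize k * L = y at *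
        split_ifs <;> omega

theorem win_closed (L M : ℕ) (hL : 1 ≤ L) (hLM : L ≤ M) (n : ℕ) (hn : L ≤ n)
    (hw : FirstWins L M n) :
    IsLeast {v | ∃ a, L ≤ a ∧ a ≤ M ∧ a ≤ n ∧ ¬ FirstWins L M (n - a) ∧ v = F2 L M (n - a) + a}
      (F1 L M n) := by
  obtain ⟨k, r, hr, rfl⟩ := decomp L M hL n
  rw [firstWins_iff L M hL hLM, (div_mod_aux (L + M) k r hr).2] at hw
  rw [F1_eq L M k r hr]
  have hxy : k * L ≤ k * M := Nat.mul_le_mul_left k hLM
  constructor
  · obtain ⟨a, ha1, ha2, ha3, ha4⟩ : ∃ a, L ≤ a ∧ a ≤ M ∧ a ≤ r ∧ (a = L ∧ r < 2 * L ∨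
        a = r - L + 1 ∧ 2 * L ≤ r) := by
      by_cases h : r < 2 * L
      · exact ⟨L, le_rfl, hLM, hw, Or.inl ⟨rfl, h⟩⟩
      · exact ⟨r - L + 1, by omega, by omega, by omega, Or.inr ⟨rfl, by omega⟩⟩
    refine ⟨a, ha1, ha2, by omega, ?_, ?_⟩
    · rw [firstWins_iff L M hL hLM,
        show k * (L + M) + r - a = k * (L + M) + (r - a) by omega,
        (div_mod_aux (L + M) k (r - a) (by omega)).2]
      omega
    · rw [F2_sub_le L M k r a hr ha3, G1, G2]
      generalize k * M = x at *
      generalize k * L = y at *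
      split_ifs <;> omega
  · rintro v ⟨a, h1, h2, h3, h4, rfl⟩
    rw [firstWins_iff L M hL hLM] at h4
    by_cases ha : a ≤ r
    · rw [show k * (L + M) + r - a = k * (L + M) + (r - a) by omega,
        (div_mod_aux (L + M) k (r - a) (by omega)).2] at h4
      rw [F2_sub_le L M k r a hr ha, G1, G2]
      generalize k * M = x at *
      generalize k * L = y at *
      split_ifs <;> omega
    · exfalso
      rcases zero_or_succ k with rfl | ⟨k, rfl⟩
      · omega
      · rw [show (k + 1) * (L + M) + r - a = k * (L + M) + (L + M + r - a) by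
          rw [Nat.succ_mul]; omega, (div_mod_aux (L + M) k (L + M + r - a) (by omega)).2] at h4
        omega

theorem lose_closed (L M : ℕ) (hL : 1 ≤ L) (hLM : L ≤ M) (n : ℕ) (hn : L ≤ n)
    (hw : ¬ FirstWins L M n) :
    IsLeast {v | ∃ a, L ≤ a ∧ a ≤ M ∧ a ≤ n ∧ F1 L M (n - a) = F2 L M n ∧
      v = F2 L M (n - a) + a} (F1 L M n) := by
  obtain ⟨k, r, hr, rfl⟩ := decomp L M hL n
  rw [firstWins_iff L M hL hLM, (div_mod_aux (L + M) k r hr).2] at hw
  rw [F1_eq L M k r hr, F2_eq L M k r hr]
  rcases zero_or_succ k with rfl | ⟨k, rfl⟩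
  · exfalso; omega
  have hx : (k + 1) * M = k * M + M := Nat.succ_mul k M
  have hy : (k + 1) * L = k * L + L := Nat.succ_mul k L
  have hxy : k * L ≤ k * M := Nat.mul_le_mul_left k hLM
  rw [hx, hy]
  constructor
  · refine ⟨L, le_rfl, hLM, hn, ?_, ?_⟩
    · rw [F1_sub_gt L M k r L (by omega) (by omega), G1, G2]
      generalize k * M = x at *
      generalize k * L = y at *
      split_ifs <;> omega
    · rw [F2_sub_gt L M k r L (by omega) (by omega), G1, G2]
      generalize k * M = x at *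
      generalize k * L = y at *
      split_ifs <;> omega
  · rintro v ⟨a, h1, h2, h3, h4, rfl⟩
    rw [F1_sub_gt L M k r a (by omega) (by omega), G1, G2] at h4
    rw [F2_sub_gt L M k r a (by omega) (by omega), G1, G2]
    generalize k * M = x at *
    generalize k * L = y at *
    split_ifs at * <;> omega

theorem closed (L M : ℕ) (hL : 1 ≤ L) (hLM : L ≤ M) : IsCash L M (F1 L M) (F2 L M) where
  small := by
    intro n hn
    have h1 := F1_eq L M 0 n (by omega)
    have h2 := F2_eq L M 0 n (by omega)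
    simp only [Nat.zero_mul, Nat.zero_add] at h1 h2
    rw [h1, h2, G1, G2]
    constructor <;> split_ifs <;> omega
  two := two_closed L M hL hLM
  one_win := win_closed L M hL hLM
  one_lose := lose_closed L M hL hLM

theorem unique (L M : ℕ) (hL : 1 ≤ L) (f g f' g' : ℕ → ℕ) (h : IsCash L M f g)
    (h' : IsCash L M f' g') (n : ℕ) : f n = f' n ∧ g n = g' n := by
  induction n using Nat.strong_induction_on with
  | _ n ih =>
    by_cases hn : n < L
    · rw [(h.small n hn).1, (h.small n hn).2, (h'.small n hn).1, (h'.small n hn).2]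
      exact ⟨rfl, rfl⟩
    push Not at hn
    have e1 : ∀ a, L ≤ a → a ≤ n → f (n - a) = f' (n - a) := fun a ha1 ha2 =>
      (ih (n - a) (by omega)).1
    have e2 : ∀ a, L ≤ a → a ≤ n → g (n - a) = g' (n - a) := fun a ha1 ha2 =>
      (ih (n - a) (by omega)).2
    have hg : g n = g' n := by
      refine (h.two n hn).unique ?_
      have h1 := h'.two n hn
      have : {v | ∃ a, L ≤ a ∧ a ≤ M ∧ a ≤ n ∧ v = f' (n - a)} =
          {v | ∃ a, L ≤ a ∧ a ≤ M ∧ a ≤ n ∧ v = f (n - a)} := by
        ext v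
        constructor
        · rintro ⟨a, h1, h2, h3, h4⟩; exact ⟨a, h1, h2, h3, by rw [e1 a h1 h3]; exact h4⟩
        · rintro ⟨a, h1, h2, h3, h4⟩; exact ⟨a, h1, h2, h3, by rw [← e1 a h1 h3]; exact h4⟩
      rw [this] at h1
      exact h1
    refine ⟨?_, hg⟩
    by_cases hw : FirstWins L M n
    · refine (h.one_win n hn hw).unique ?_
      have h1 := h'.one_win n hn hw
      have : {v | ∃ a, L ≤ a ∧ a ≤ M ∧ a ≤ n ∧ ¬ FirstWins L M (n - a) ∧ v = g' (n - a) + a} =
          {v | ∃ a, L ≤ a ∧ a ≤ M ∧ a ≤ n ∧ ¬ FirstWins L M (n - a) ∧ v = g (n - a) + a} := by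
        ext v
        constructor
        · rintro ⟨a, h1, h2, h3, h5, h4⟩
          exact ⟨a, h1, h2, h3, h5, by rw [e2 a h1 h3]; exact h4⟩
        · rintro ⟨a, h1, h2, h3, h5, h4⟩
          exact ⟨a, h1, h2, h3, h5, by rw [← e2 a h1 h3]; exact h4⟩
      rw [this] at h1
      exact h1
    · refine (h.one_lose n hn hw).unique ?_
      have h1 := h'.one_lose n hn hw
      have : {v | ∃ a, L ≤ a ∧ a ≤ M ∧ a ≤ n ∧ f' (n - a) = g' n ∧ v = g' (n - a) + a} =
          {v | ∃ a, L ≤ a ∧ a ≤ M ∧ a ≤ n ∧ f (n - a) = g n ∧ v = g (n - a) + a} := by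
        ext v
        constructor
        · rintro ⟨a, h1, h2, h3, h5, h4⟩
          exact ⟨a, h1, h2, h3, by rw [e1 a h1 h3, hg]; exact h5, by rw [e2 a h1 h3]; exact h4⟩
        · rintro ⟨a, h1, h2, h3, h5, h4⟩
          exact ⟨a, h1, h2, h3, by rw [← e1 a h1 h3, ← hg]; exact h5,
            by rw [← e2 a h1 h3]; exact h4⟩
      rw [this] at h1
      exact h1

/-- the closed forms are eventually quasi-periodic -/
theorem closed_quasi (L M : ℕ) (hL : 1 ≤ L) (hLM : L ≤ M) (n : ℕ) (hn : 2 * L * (L + M) ≤ n) :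
    F1 L M (n + (L + M)) = F1 L M n + M ∧ F2 L M (n + (L + M)) = F2 L M n + M := by
  obtain ⟨k, r, hr, rfl⟩ := decomp L M hL n
  have hk : 2 * L ≤ k := by
    by_contra hcon
    push Not at hcon
    have h1 : (k + 1) * (L + M) ≤ 2 * L * (L + M) := Nat.mul_le_mul_right _ hcon
    rw [Nat.succ_mul] at h1
    omega
  have e : k * (L + M) + r + (L + M) = (k + 1) * (L + M) + r := by rw [Nat.succ_mul]; omega
  rw [e, F1_eq L M _ r hr, F1_eq L M _ r hr, F2_eq L M _ r hr, F2_eq L M _ r hr]
  have hx : (k + 1) * M = k * M + M := Nat.succ_mul k M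
  have hy : (k + 1) * L = k * L + L := Nat.succ_mul k L
  rw [hx, hy]
  rcases hLM.eq_or_lt with h | h
  · subst h
    rw [G1, G1, G2, G2]
    generalize k * L = x at *
    constructor <;> split_ifs <;> omega
  · have h1 : k * L + 2 * L ≤ k * M := by
      have h2 : k * (L + 1) ≤ k * M := Nat.mul_le_mul_left k h
      rw [Nat.mul_succ] at h2
      omega
    rw [G1, G1, G2, G2]
    generalize k * M = x at *
    generalize k * L = y at *
    constructor <;> split_ifs <;> omega

/-- **Q1 of MP_88cfb8 is true.** For all `1 ≤ L ≤ M` the recursion of the problem has exactly one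
solution `(f_I, f_II)`, and there is `Θ` such that
`f_I (n + L + M) = f_I n + M` and `f_II (n + L + M) = f_II n + M` for all `n ≥ Θ`. -/
theorem result (L M : ℕ) (hL : 1 ≤ L) (hLM : L ≤ M) :
    (∃ fI fII : ℕ → ℕ, IsCash L M fI fII) ∧
    (∀ fI fII gI gII : ℕ → ℕ, IsCash L M fI fII → IsCash L M gI gII → fI = gI ∧ fII = gII) ∧
    ∃ Θ : ℕ, ∀ fI fII : ℕ → ℕ, IsCash L M fI fII → ∀ n, Θ ≤ n →
      fI (n + L + M) = fI n + M ∧ fII (n + L + M) = fII n + M := by
  refine ⟨⟨_, _, closed L M hL hLM⟩, fun f g f' g' h h' => ?_, 2 * L * (L + M),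
    fun f g h n hn => ?_⟩
  · exact ⟨funext fun n => (unique L M hL f g f' g' h h' n).1,
      funext fun n => (unique L M hL f g f' g' h h' n).2⟩
  · have h1 := unique L M hL f g _ _ h (closed L M hL hLM)
    rw [Nat.add_assoc, (h1 _).1, (h1 _).2, (h1 _).1, (h1 _).2]
    exact closed_quasi L M hL hLM n hn

end Pool.Agent.Results.MP_88cfb8_co.QuasiPeriodic
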